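import Pool.Agent.W_h79_1ab439.Avg

set_option autoImplicit false
set_option maxSynthPendingDepth 3

open MeasureTheory SchwartzMap FourierTransform Real Filter Topology
open scoped SchwartzMap LineDeriv ENNReal InnerProductSpace

namespace Pool.Agent.W_h79_1ab439

open Pool.Agent.W_MP_1ab439_an

variable {n : ℕ} {Ω Λ : Set (Eu n)}

/-- The exponential with frequency `ξ`. -/
noncomputable def ex (ξ : Eu n) (x : Eu n) : ℂ :=
  Complex.exp (2 * π * Complex.I * (inner ℝ ξ x : ℝ))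

/-- `Λ` is a spectrum of `Ω`: the exponentials with frequencies in `Λ` are pairwise orthogonal in
`L²(Ω)` and complete. -/
def IsSpectrum (Ω Λ : Set (Eu n)) : Prop :=
  (∀ ξ ∈ Λ, ∀ η ∈ Λ, ξ ≠ η → ∫ x in Ω, ex ξ x * (starRingEnd ℂ) (ex η x) = 0) ∧
  ∀ f : Eu n → ℂ, MemLp f 2 (volume.restrict Ω) →
    (∀ ξ ∈ Λ, ∫ x in Ω, f x * (starRingEnd ℂ) (ex ξ x) = 0) → f =ᵐ[volume.restrict Ω] 0

theorem norm_ex (ξ x : Eu n) : ‖ex ξ x‖ = 1 := by
  rw [ex, show (2 * π * Complex.I * (inner ℝ ξ x : ℝ) : ℂ) =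
    ((2 * π * inner ℝ ξ x : ℝ) : ℂ) * Complex.I by push_cast; ring]
  exact Complex.norm_exp_ofReal_mul_I _

theorem continuous_ex (ξ : Eu n) : Continuous (ex ξ) := by
  unfold ex
  fun_prop

theorem star_ex (ξ x : Eu n) : (starRingEnd ℂ) (ex ξ x) =
    Complex.exp (((-(2 * π * inner ℝ x ξ) : ℝ) : ℂ) * Complex.I) := by
  rw [ex, ← Complex.exp_conj]
  congr 1
  simp only [map_mul, Complex.conj_I, Complex.conj_ofReal, Complex.conj_ofNat]
  rw [real_inner_comm]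
  push_cast
  ring

theorem memLp_ex (hb : volume Ω ≠ ∞) (ξ : Eu n) : MemLp (ex ξ) 2 (volume.restrict Ω) := by
  have : IsFiniteMeasure (volume.restrict Ω) := ⟨by
    rw [Measure.restrict_apply_univ]
    exact hb.lt_top⟩
  exact MemLp.of_bound (continuous_ex ξ).aestronglyMeasurable 1
    (Eventually.of_forall fun x => (norm_ex ξ x).le)

theorem inner_ex (hb : volume Ω ≠ ∞) (ξ : Eu n) (f : Eu n → ℂ)
    (hf : MemLp f 2 (volume.restrict Ω)) :
    inner ℂ ((memLp_ex hb ξ).toLp (ex ξ)) (hf.toLp f) =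
      ∫ x in Ω, f x * (starRingEnd ℂ) (ex ξ x) := by
  rw [L2.inner_def]
  refine integral_congr_ae ?_
  filter_upwards [(memLp_ex hb ξ).coeFn_toLp, hf.coeFn_toLp] with x h1 h2
  rw [h1, h2]
  rfl

theorem inner_ex_self (hb : volume Ω ≠ ∞) (ξ : Eu n) :
    inner ℂ ((memLp_ex hb ξ).toLp (ex ξ)) ((memLp_ex hb ξ).toLp (ex ξ)) =
      ((volume.real Ω : ℝ) : ℂ) := by
  rw [inner_ex hb]
  have h1 : ∀ x, ex ξ x * (starRingEnd ℂ) (ex ξ x) = 1 := by
    intro x
    rw [Complex.mul_conj, Complex.normSq_eq_norm_sq, norm_ex]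
    norm_num
  simp only [h1]
  simp [Measure.real]

/-- A spectrum gives a tight frame with both bounds equal to the volume. -/
theorem IsSpectrum.expFrame (hb : Bornology.IsBounded Ω)
    (hpos : 0 < volume.real Ω) (h : IsSpectrum Ω Λ) :
    ExpFrame Ω Λ (volume.real Ω) (volume.real Ω) := by
  have hfin : volume Ω ≠ ∞ := hb.measure_lt_top.ne
  set v : ℝ := volume.real Ω with hv
  set e : Λ → Lp ℂ 2 (volume.restrict Ω) := fun ξ =>
    (((√v)⁻¹ : ℝ) : ℂ) • (memLp_ex hfin (ξ : Eu n)).toLp (ex (ξ : Eu n)) with he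
  have hsv : 0 < √v := Real.sqrt_pos.2 hpos
  have hss : √v * √v = v := Real.mul_self_sqrt hpos.le
  have horth : Orthonormal ℂ e := by
    rw [orthonormal_iff_ite]
    intro ξ η
    simp only [he]
    rw [inner_smul_left, inner_smul_right, Complex.conj_ofReal]
    split_ifs with hξη
    · subst hξη
      rw [inner_ex_self hfin, ← hv]
      norm_cast
      rw [← mul_assoc, ← mul_inv, hss]
      exact inv_mul_cancel₀ hpos.ne'
    · rw [inner_ex hfin]
      rw [h.1 η η.2 ξ ξ.2 (fun hc => hξη (Subtype.ext hc).symm)]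
      simp
  have hcomp : (Submodule.span ℂ (Set.range e))ᗮ = ⊥ := by
    rw [Submodule.eq_bot_iff]
    intro F hF
    have hF' : ∀ ξ : Λ, inner ℂ (e ξ) F = 0 := fun ξ =>
      (Submodule.mem_orthogonal _ _).1 hF _ (Submodule.subset_span ⟨ξ, rfl⟩)
    have hmem : MemLp (F : Eu n → ℂ) 2 (volume.restrict Ω) := Lp.memLp F
    have h0 : (F : Eu n → ℂ) =ᵐ[volume.restrict Ω] 0 := by
      refine h.2 _ hmem fun ξ hξ => ?_
      have h1 := hF' ⟨ξ, hξ⟩
      simp only [he] at h1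
      rw [inner_smul_left] at h1
      have h2 : inner ℂ ((memLp_ex hfin ξ).toLp (ex ξ)) F = 0 := by
        rcases mul_eq_zero.1 h1 with h3 | h3
        · exfalso
          rw [Complex.conj_ofReal] at h3
          have h4 : (√v)⁻¹ = 0 := by exact_mod_cast h3
          exact (inv_pos.2 hsv).ne' h4
        · exact h3
      rw [← Lp.toLp_coeFn F hmem, inner_ex hfin] at h2
      exact h2
    exact (Lp.eq_zero_iff_ae_eq_zero).2 h0
  set b := HilbertBasis.mkOfOrthogonalEqBot horth hcomp with hbdef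
  have hbe : ∀ ξ, b ξ = e ξ := fun ξ => by rw [hbdef, HilbertBasis.coe_mkOfOrthogonalEqBot]
  intro f hf hfc hfs
  have hfLp : MemLp f 2 (volume.restrict Ω) :=
    (hf.continuous.memLp_of_hasCompactSupport hfc).restrict Ω
  have hz : ∀ x, x ∉ Ω → f x = 0 := fun x hx =>
    image_eq_zero_of_notMem_tsupport fun h' => hx (hfs h')
  -- the Fourier coefficient
  have hcoef : ∀ ξ : Eu n, inner ℂ ((memLp_ex hfin ξ).toLp (ex ξ)) (hfLp.toLp f) = 𝓕 f ξ := by
    intro ξ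
    rw [inner_ex hfin, Real.fourier_eq]
    rw [setIntegral_eq_integral_of_forall_compl_eq_zero]
    · congr 1
      funext x
      rw [star_ex, Circle.smul_def, Real.fourierChar_apply, smul_eq_mul, mul_comm]
      congr 2
      push_cast
      ring
    · intro x hx
      rw [hz x hx, zero_mul]
  have hnorm : ‖hfLp.toLp f‖ ^ 2 = ∫ x, ‖f x‖ ^ 2 := by
    have h1 : (inner ℂ (hfLp.toLp f) (hfLp.toLp f) : ℂ) = ((‖hfLp.toLp f‖ ^ 2 : ℝ) : ℂ) := by
      rw [inner_self_eq_norm_sq_to_K]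
      norm_cast
    have h2 : (inner ℂ (hfLp.toLp f) (hfLp.toLp f) : ℂ) = ((∫ x, ‖f x‖ ^ 2 : ℝ) : ℂ) := by
      rw [L2.inner_def, ← integral_complex_ofReal]
      have h3 : ∫ x in Ω, ((‖f x‖ ^ 2 : ℝ) : ℂ) = ∫ x, ((‖f x‖ ^ 2 : ℝ) : ℂ) := by
        refine setIntegral_eq_integral_of_forall_compl_eq_zero fun x hx => ?_
        rw [hz x hx]
        simp
      rw [← h3]
      refine integral_congr_ae ?_
      filter_upwards [hfLp.coeFn_toLp] with x h4
      rw [h4, inner_self_eq_norm_sq_to_K]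
      norm_cast
    rw [h1] at h2
    exact_mod_cast h2
  have hpars : HasSum (fun ξ : Λ => ‖𝓕 f (ξ : Eu n)‖ ^ 2) (v * ∫ x, ‖f x‖ ^ 2) := by
    have h1 := b.hasSum_inner_mul_inner (hfLp.toLp f) (hfLp.toLp f)
    have h2 : ∀ ξ : Λ, inner ℂ (hfLp.toLp f) (b ξ) * inner ℂ (b ξ) (hfLp.toLp f) =
        ((v⁻¹ * ‖𝓕 f (ξ : Eu n)‖ ^ 2 : ℝ) : ℂ) := by
      intro ξ
      rw [hbe, ← inner_conj_symm (hfLp.toLp f) (e ξ)]
      simp only [he]
      rw [inner_smul_left, hcoef, Complex.conj_ofReal, Complex.conj_mul', norm_mul,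
        Complex.norm_real, norm_inv, Real.norm_of_nonneg hsv.le]
      norm_cast
      rw [mul_pow, inv_pow, Real.sq_sqrt hpos.le]
    simp only [h2] at h1
    have h3 : (inner ℂ (hfLp.toLp f) (hfLp.toLp f) : ℂ) = ((∫ x, ‖f x‖ ^ 2 : ℝ) : ℂ) := by
      rw [inner_self_eq_norm_sq_to_K, ← hnorm]
      norm_cast
    rw [h3] at h1
    have h4 : HasSum (fun ξ : Λ => v⁻¹ * ‖𝓕 f (ξ : Eu n)‖ ^ 2) (∫ x, ‖f x‖ ^ 2) := by
      exact_mod_cast h1
    have h5 := h4.mul_left v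
    have h6 : (fun ξ : Λ => v * (v⁻¹ * ‖𝓕 f (ξ : Eu n)‖ ^ 2)) =
        fun ξ : Λ => ‖𝓕 f (ξ : Eu n)‖ ^ 2 := by
      funext ξ
      rw [← mul_assoc, mul_inv_cancel₀ hpos.ne', one_mul]
    rwa [h6] at h5
  have hE : ∑' ξ : Λ, ENNReal.ofReal (‖𝓕 f (ξ : Eu n)‖ ^ 2) =
      ENNReal.ofReal (v * ∫ x, ‖f x‖ ^ 2) := by
    rw [← hpars.tsum_eq, ENNReal.ofReal_tsum_of_nonneg (fun _ => by positivity) hpars.summable]
  exact ⟨hE.ge, hE.le⟩

end Pool.Agent.W_h79_1ab439
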