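import Pool.Agent.W_h79_1ab439.Mod

set_option autoImplicit false
set_option maxSynthPendingDepth 3

open MeasureTheory SchwartzMap FourierTransform Real Filter Topology
open scoped SchwartzMap LineDeriv ENNReal

namespace Pool.Agent.W_h79_1ab439

open Pool.Agent.W_MP_1ab439_an

variable {n : ℕ} {Ω Λ : Set (Eu n)} {lam A B : ℝ} {N : ℕ}

theorem toS_compact (u : Eu n → ℝ) (hu : Good u) : HasCompactSupport (toS u hu) :=
  hu.2.comp_left (g := ((↑) : ℝ → ℂ)) (by simp)

theorem toS_tsupport (u : Eu n → ℝ) (hu : Good u) : tsupport (toS u hu) ⊆ tsupport u := by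
  refine closure_mono fun x hx => ?_
  rw [Function.mem_support] at hx ⊢
  intro h
  apply hx
  rw [toS_apply, h, Complex.ofReal_zero]

/-- Upper frame bound for a normalised function of the system, at every shift. -/
theorem upper_shift (hF : ExpFrame Ω Λ A B) (S : Sys Ω lam N) (i : Fin N) (s : Eu n) :
    ∑' ξ : Λ, ENNReal.ofReal (‖𝓕 (toS (S.u i) (S.good i)) ((ξ : Eu n) - s)‖ ^ 2) ≤
      ENNReal.ofReal B := by
  have h := (hF.shift (toS (S.u i) (S.good i)) (toS_compact _ _)
    ((toS_tsupport _ _).trans (S.supp i)) s).2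
  have h1 : ∫ x, ‖toS (S.u i) (S.good i) x‖ ^ 2 = 1 := by
    have h2 := S.orth i i
    rw [if_pos rfl] at h2
    rw [← h2]
    congr 1
    funext x
    rw [toS_apply, Complex.norm_real, Real.norm_eq_abs, sq_abs, pow_two]
  rwa [h1, mul_one] at h

theorem integral_fourier_sq (S : Sys Ω lam N) (i : Fin N) :
    ∫ w : Eu n, ‖𝓕 (toS (S.u i) (S.good i)) w‖ ^ 2 = 1 := by
  rw [plancherel]
  have h2 := S.orth i i
  rw [if_pos rfl] at h2
  rw [← h2]
  congr 1
  funext x
  rw [pow_two]

theorem lintegral_fourier_sq (S : Sys Ω lam N) (i : Fin N) :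
    ∫⁻ w : Eu n, ENNReal.ofReal (‖𝓕 (toS (S.u i) (S.good i)) w‖ ^ 2) = 1 := by
  rw [← ofReal_integral_eq_lintegral_ofReal (integrable_norm_sq _)
    (Eventually.of_forall fun w => by positivity), integral_fourier_sq, ENNReal.ofReal_one]

theorem continuous_fourier_sq (S : Sys Ω lam N) (i : Fin N) :
    Continuous fun w : Eu n => ‖𝓕 (toS (S.u i) (S.good i)) w‖ ^ 2 :=
  (SchwartzMap.continuous _).norm.pow 2

/-- The frequency set of an exponential frame is countable. -/
theorem countable_freq (hF : ExpFrame Ω Λ A B) (S : Sys Ω lam N) (i : Fin N) :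
    Λ.Countable := by
  obtain ⟨w0, hw0⟩ : ∃ w : Eu n, 0 < ‖𝓕 (toS (S.u i) (S.good i)) w‖ ^ 2 := by
    by_contra hcon
    push Not at hcon
    have h1 : ∀ w : Eu n, ‖𝓕 (toS (S.u i) (S.good i)) w‖ ^ 2 = 0 := fun w =>
      le_antisymm (hcon w) (by positivity)
    have h2 := integral_fourier_sq S i
    simp only [h1, integral_zero] at h2
    exact zero_ne_one h2
  set g : Eu n → ℝ := fun w => ‖𝓕 (toS (S.u i) (S.good i)) w‖ ^ 2 with hg
  have hgc : Continuous g := continuous_fourier_sq S i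
  set c : ℝ := g w0 / 2 with hc
  have hcpos : 0 < c := by
    have : 0 < g w0 := hw0
    rw [hc]
    linarith
  have hU : IsOpen {w : Eu n | c < g w} := isOpen_lt continuous_const hgc
  have hfin : ∀ s : Eu n, {ξ : Λ | c < g ((ξ : Eu n) - s)}.Finite := by
    intro s
    have h1 := upper_shift hF S i s
    have h2 : ∑' ξ : Λ, ENNReal.ofReal (g ((ξ : Eu n) - s)) ≠ ∞ :=
      (h1.trans_lt ENNReal.ofReal_lt_top).ne
    have h3 : ENNReal.ofReal c ≠ 0 := (ENNReal.ofReal_pos.2 hcpos).ne'
    refine (ENNReal.finite_const_le_of_tsum_ne_top h2 h3).subset ?_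
    intro ξ hξ
    exact ENNReal.ofReal_le_ofReal (le_of_lt hξ)
  have hsub : Λ ⊆ ⋃ k : ℕ, ((↑) : Λ → Eu n) ''
      {ξ : Λ | c < g ((ξ : Eu n) - TopologicalSpace.denseSeq (Eu n) k)} := by
    intro ξ hξ
    have hV : IsOpen {s : Eu n | c < g (ξ - s)} :=
      isOpen_lt continuous_const (hgc.comp (continuous_const.sub continuous_id))
    have hne : {s : Eu n | c < g (ξ - s)}.Nonempty := by
      refine ⟨ξ - w0, ?_⟩
      change c < g (ξ - (ξ - w0))
      rw [sub_sub_cancel, hc]
      have : 0 < g w0 := hw0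
      linarith
    obtain ⟨k, hk⟩ := (TopologicalSpace.denseRange_denseSeq (Eu n)).exists_mem_open hV hne
    refine Set.mem_iUnion.2 ⟨k, ⟨ξ, hξ⟩, hk, rfl⟩
  exact (Set.countable_iUnion fun k => ((hfin _).image _).countable).mono hsub

/-- Averaging the counting lemma over all shifts. -/
theorem count_avg (hF : ExpFrame Ω Λ A B) (hA : 0 < A) (hAB : A ≤ B) (S : Sys Ω lam N) {r : ℝ}
    (hr : lam * B < 4 * π ^ 2 * r ^ 2 * A) (hr0 : 0 < r) (i : Fin N) :
    (N : ℝ≥0∞) ≤ ENNReal.ofReal B * volume (Metric.ball (0 : Eu n) r) := by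
  have hcount : Countable Λ := (countable_freq hF S i).to_subtype
  set g : Eu n → ℝ≥0∞ := fun w => ENNReal.ofReal (‖𝓕 (toS (S.u i) (S.good i)) w‖ ^ 2) with hg
  have hgm : Measurable g := (continuous_fourier_sq S i).measurable.ennreal_ofReal
  have h1 : ∫⁻ w, g w = 1 := lintegral_fourier_sq S i
  have hind : ∀ (w ξ : Eu n), (Metric.ball w r).indicator (fun _ => (1 : ℝ≥0∞)) ξ =
      (Metric.ball ξ r).indicator (fun _ => (1 : ℝ≥0∞)) w := by
    intro w ξ
    by_cases h : ξ ∈ Metric.ball w r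
    · rw [Set.indicator_of_mem h, Set.indicator_of_mem (Metric.mem_ball_comm.1 h)]
    · rw [Set.indicator_of_notMem h, Set.indicator_of_notMem fun h' => h (Metric.mem_ball_comm.1 h')]
  have hbm : ∀ ξ : Eu n, Measurable ((Metric.ball ξ r).indicator (fun _ => (1 : ℝ≥0∞))) :=
    fun ξ => measurable_const.indicator Metric.isOpen_ball.measurableSet
  calc (N : ℝ≥0∞) = ∫⁻ w, g w * N := by
        rw [lintegral_mul_const _ hgm, h1, one_mul]
    _ ≤ ∫⁻ w, g w * ∑' ξ : Λ, (Metric.ball w r).indicator (fun _ => (1 : ℝ≥0∞)) (ξ : Eu n) :=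
        lintegral_mono fun w => mul_le_mul_right (count_ball hF hA hAB S hr hr0 w) _
    _ = ∫⁻ w, ∑' ξ : Λ, g w * (Metric.ball (ξ : Eu n) r).indicator (fun _ => (1 : ℝ≥0∞)) w := by
        congr 1
        funext w
        rw [← ENNReal.tsum_mul_left]
        exact tsum_congr fun ξ => by rw [hind]
    _ = ∑' ξ : Λ, ∫⁻ w, g w * (Metric.ball (ξ : Eu n) r).indicator (fun _ => (1 : ℝ≥0∞)) w :=
        lintegral_tsum fun ξ => (hgm.mul (hbm _)).aemeasurable
    _ = ∑' ξ : Λ, ∫⁻ y, g ((ξ : Eu n) - y) *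
          (Metric.ball (0 : Eu n) r).indicator (fun _ => (1 : ℝ≥0∞)) y := by
        refine tsum_congr fun ξ => ?_
        rw [← lintegral_sub_left_eq_self (μ := volume) (fun w => g w *
          (Metric.ball (ξ : Eu n) r).indicator (fun _ => (1 : ℝ≥0∞)) w) (ξ : Eu n)]
        congr 1
        funext y
        congr 1
        by_cases h : y ∈ Metric.ball (0 : Eu n) r
        · rw [Set.indicator_of_mem h, Set.indicator_of_mem]
          rw [Metric.mem_ball, dist_eq_norm] at h ⊢
          rw [sub_zero] at h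
          rwa [sub_sub_cancel_left, norm_neg]
        · rw [Set.indicator_of_notMem h, Set.indicator_of_notMem]
          intro h'
          apply h
          rw [Metric.mem_ball, dist_eq_norm] at h' ⊢
          rw [sub_zero]
          rwa [sub_sub_cancel_left, norm_neg] at h'
    _ = ∫⁻ y, ∑' ξ : Λ, g ((ξ : Eu n) - y) *
          (Metric.ball (0 : Eu n) r).indicator (fun _ => (1 : ℝ≥0∞)) y := by
        rw [lintegral_tsum]
        intro ξ
        exact ((hgm.comp (measurable_const.sub measurable_id)).mul (hbm _)).aemeasurable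
    _ ≤ ∫⁻ y, ENNReal.ofReal B *
          (Metric.ball (0 : Eu n) r).indicator (fun _ => (1 : ℝ≥0∞)) y := by
        refine lintegral_mono fun y => ?_
        rw [ENNReal.tsum_mul_right]
        exact mul_le_mul_left (upper_shift hF S i y) _
    _ = ENNReal.ofReal B * volume (Metric.ball (0 : Eu n) r) := by
        rw [lintegral_const_mul _ (hbm _), lintegral_indicator Metric.isOpen_ball.measurableSet]
        simp

/-- The frame bound for the counting function. -/
theorem count_frame (hF : ExpFrame Ω Λ A B) (hA : 0 < A) (hAB : A ≤ B) (hl : 0 < lam)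
    (S : Sys Ω lam N) :
    (N : ℝ) ≤ B * (volume.real (Metric.ball (0 : Eu n) 1) *
      (√(lam * B / A) / (2 * π)) ^ n) := by
  have hB : 0 < B := hA.trans_le hAB
  rcases Nat.eq_zero_or_pos N with h0 | hN
  · rw [h0, Nat.cast_zero]
    positivity
  have hpi := pi_pos
  set r0 : ℝ := √(lam * B / A) / (2 * π) with hr0
  have hr0pos : 0 < r0 := by positivity
  have hsq : 4 * π ^ 2 * r0 ^ 2 * A = lam * B := by
    rw [hr0, div_pow, Real.sq_sqrt (by positivity)]
    field_simp
    ring
  have key : ∀ r : ℝ, r0 < r →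
      (N : ℝ) ≤ B * (volume.real (Metric.ball (0 : Eu n) 1) * r ^ n) := by
    intro r hr
    have hrp : 0 < r := hr0pos.trans hr
    have h1 : lam * B < 4 * π ^ 2 * r ^ 2 * A := by
      rw [← hsq]
      have h2 : r0 ^ 2 < r ^ 2 := pow_lt_pow_left₀ hr hr0pos.le (by norm_num)
      have h3 : 0 < 4 * π ^ 2 * A := by positivity
      nlinarith
    have h2 := count_avg hF hA hAB S h1 hrp ⟨0, hN⟩
    have h3 : volume (Metric.ball (0 : Eu n) r) =
        ENNReal.ofReal (volume.real (Metric.ball (0 : Eu n) 1) * r ^ n) := by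
      rw [Measure.addHaar_ball_of_pos _ _ hrp, finrank_euclideanSpace, Fintype.card_fin, mul_comm,
        ENNReal.ofReal_mul (by positivity), Measure.real,
        ENNReal.ofReal_toReal Metric.isBounded_ball.measure_lt_top.ne]
    rw [h3, ← ENNReal.ofReal_mul hB.le] at h2
    have h4 : ((N : ℕ) : ℝ≥0∞) = ENNReal.ofReal (N : ℝ) := by simp
    rw [h4] at h2
    exact (ENNReal.ofReal_le_ofReal_iff (by positivity)).1 h2
  have hlim : Tendsto (fun r : ℝ => B * (volume.real (Metric.ball (0 : Eu n) 1) * r ^ n))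
      (𝓝[>] r0) (𝓝 (B * (volume.real (Metric.ball (0 : Eu n) 1) * r0 ^ n))) := by
    have hcont : Continuous fun r : ℝ =>
        B * (volume.real (Metric.ball (0 : Eu n) 1) * r ^ n) := by fun_prop
    exact hcont.continuousAt.tendsto.mono_left nhdsWithin_le_nhds
  exact ge_of_tendsto hlim (eventually_nhdsWithin_of_forall fun r hr => key r hr)

/-- The bound for a space of test functions: an exponential frame with bounds `A ≤ B` gives the
factor `(B / |Ω|) (B / A)^(n/2)` in front of the Weyl term. -/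
theorem frame_count (hn : 1 ≤ n) (hA : 0 < A) (hAB : A ≤ B) (hF : ExpFrame Ω Λ A B)
    (hl : 0 < lam) (V : Submodule ℝ (Eu n → ℝ))
    (hV : ∀ u ∈ V, ContDiff ℝ (⊤ : ℕ∞) u ∧ HasCompactSupport u ∧ tsupport u ⊆ Ω)
    (hE : ∀ u ∈ V, u ≠ 0 → ∫ x, ‖fderiv ℝ u x‖ ^ 2 < lam * ∫ x, (u x) ^ 2) :
    (Module.finrank ℝ V : ℝ) ≤ (B / A) ^ ((n : ℝ) / 2) *
      ((4 * Real.pi) ^ (-(n : ℝ) / 2) / Real.Gamma (1 + (n : ℝ) / 2)
        * lam ^ ((n : ℝ) / 2) * B) := by
  have hB : 0 < B := hA.trans_le hAB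
  by_cases hfin : FiniteDimensional ℝ V
  · obtain ⟨S⟩ := exists_sys hl V hV hE
    have h := count_frame hF hA hAB hl S
    have hlB : 0 < lam * B / A := by positivity
    rw [weyl_eq hn hlB] at h
    have h2 : (lam * B / A) ^ ((n : ℝ) / 2) = (B / A) ^ ((n : ℝ) / 2) * lam ^ ((n : ℝ) / 2) := by
      rw [← Real.mul_rpow (by positivity) hl.le]
      congr 1
      ring
    rw [h2] at h
    calc (Module.finrank ℝ V : ℝ) ≤ _ := h
      _ = _ := by ring
  · rw [Module.finrank_of_infinite_dimensional hfin, Nat.cast_zero]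
    have h2 : 0 < Real.Gamma (1 + (n : ℝ) / 2) := Real.Gamma_pos_of_pos (by positivity)
    positivity

end Pool.Agent.W_h79_1ab439
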