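import Pool.Agent.W_MP_1ab439_an.Assemble

set_option autoImplicit false
set_option maxSynthPendingDepth 3

open MeasureTheory SchwartzMap FourierTransform Real Filter Topology
open scoped SchwartzMap LineDeriv ENNReal

namespace Pool.Agent.W_h79_1ab439

open Pool.Agent.W_MP_1ab439_an

variable {n : ℕ} {Ω : Set (Eu n)} {lam : ℝ} {N : ℕ}

/-- The exponentials with frequencies in `Λ` form a frame for the smooth functions supported in
`Ω`, with bounds `A` and `B`. -/
def ExpFrame (Ω Λ : Set (Eu n)) (A B : ℝ) : Prop :=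
  ∀ f : Eu n → ℂ, ContDiff ℝ (⊤ : ℕ∞) f → HasCompactSupport f → tsupport f ⊆ Ω →
    ENNReal.ofReal (A * ∫ x, ‖f x‖ ^ 2) ≤ ∑' ξ : Λ, ENNReal.ofReal (‖𝓕 f ξ‖ ^ 2) ∧
    ∑' ξ : Λ, ENNReal.ofReal (‖𝓕 f ξ‖ ^ 2) ≤ ENNReal.ofReal (B * ∫ x, ‖f x‖ ^ 2)

/-- Complex combination of the functions of the system. -/
noncomputable def comb (S : Sys Ω lam N) (a : Fin N → ℂ) : 𝓢(Eu n, ℂ) :=
  toS (lin S.u (fun i => (a i).re)) (S.good_lin _) +
    Complex.I • toS (lin S.u (fun i => (a i).im)) (S.good_lin _)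

theorem comb_eq_sum (S : Sys Ω lam N) (a : Fin N → ℂ) :
    comb S a = ∑ i, a i • toS (S.u i) (S.good i) := by
  ext x
  simp only [comb, add_apply, smul_apply, sum_apply, toS_apply, smul_eq_mul, lin]
  push_cast
  rw [Finset.mul_sum, ← Finset.sum_add_distrib]
  refine Finset.sum_congr rfl fun i _ => ?_
  conv_rhs => rw [← Complex.re_add_im (a i)]
  ring

theorem fourier_comb (S : Sys Ω lam N) (a : Fin N → ℂ) (w : Eu n) :
    𝓕 (comb S a) w = ∑ i, a i * 𝓕 (toS (S.u i) (S.good i)) w := by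
  have h1 : 𝓕 (comb S a) = ∑ i, a i • 𝓕 (toS (S.u i) (S.good i)) := by
    rw [comb_eq_sum, FourierTransform.fourier_sum]
    refine Finset.sum_congr rfl fun i _ => ?_
    rw [FourierTransform.fourier_smul]
  rw [h1]
  simp only [sum_apply, smul_apply, smul_eq_mul]

theorem sq_re_im (a : Fin N → ℂ) :
    (∑ i, (a i).re ^ 2) + ∑ i, (a i).im ^ 2 = ∑ i, ‖a i‖ ^ 2 := by
  rw [← Finset.sum_add_distrib]
  refine Finset.sum_congr rfl fun i _ => ?_
  rw [← Complex.normSq_eq_norm_sq, Complex.normSq_apply]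
  ring

theorem norm_comb_sq (S : Sys Ω lam N) (a : Fin N → ℂ) (x : Eu n) :
    ‖comb S a x‖ ^ 2 =
      (lin S.u (fun i => (a i).re) x) ^ 2 + (lin S.u (fun i => (a i).im) x) ^ 2 := by
  simp only [comb, add_apply, smul_apply, toS_apply, smul_eq_mul]
  exact norm_sq_re_im _ _

theorem integral_comb_sq (S : Sys Ω lam N) (a : Fin N → ℂ) :
    ∫ x, ‖comb S a x‖ ^ 2 = ∑ i, ‖a i‖ ^ 2 := by
  simp only [norm_comb_sq]
  rw [integral_add, S.integral_lin_sq, S.integral_lin_sq, sq_re_im]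
  · simpa [pow_two] using (S.good_lin (fun i => (a i).re)).integrable_mul
      (S.good_lin (fun i => (a i).re))
  · simpa [pow_two] using (S.good_lin (fun i => (a i).im)).integrable_mul
      (S.good_lin (fun i => (a i).im))

theorem fderiv_comb (S : Sys Ω lam N) (a : Fin N → ℂ) (x m : Eu n) :
    fderiv ℝ (comb S a) x m = ((fderiv ℝ (lin S.u (fun i => (a i).re)) x m : ℝ) : ℂ) +
      Complex.I * ((fderiv ℝ (lin S.u (fun i => (a i).im)) x m : ℝ) : ℂ) := by
  rw [← lineDerivOp_apply_eq_fderiv, comb, LineDeriv.lineDerivOp_add,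
    LineDeriv.lineDerivOp_smul]
  simp only [add_apply, smul_apply, smul_eq_mul, lineDerivOp_apply_eq_fderiv, fderiv_toS]

theorem energy_comb_le (S : Sys Ω lam N) (a : Fin N → ℂ) :
    energy (comb S a) ≤ lam * ∑ i, ‖a i‖ ^ 2 := by
  have hi1 := (S.good_lin (fun i => (a i).re)).integrable_fderiv_sq
  have hi2 := (S.good_lin (fun i => (a i).im)).integrable_fderiv_sq
  have h1 : energy (comb S a) = (∫ x, ‖fderiv ℝ (lin S.u (fun i => (a i).re)) x‖ ^ 2) +
      ∫ x, ‖fderiv ℝ (lin S.u (fun i => (a i).im)) x‖ ^ 2 := by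
    rw [← integral_add hi1 hi2, energy]
    have h2 : (fun x => ‖fderiv ℝ (lin S.u (fun i => (a i).re)) x‖ ^ 2 +
        ‖fderiv ℝ (lin S.u (fun i => (a i).im)) x‖ ^ 2) =
        fun x => ∑ k : Fin n, ‖fderiv ℝ (comb S a) x (EuclideanSpace.single k 1)‖ ^ 2 := by
      funext x
      rw [norm_sq_dual, norm_sq_dual, ← Finset.sum_add_distrib]
      refine Finset.sum_congr rfl fun k _ => ?_
      rw [fderiv_comb, norm_sq_re_im]
    rw [h2, integral_finsetSum]
    intro k _
    have h3 := integrable_norm_sq (∂_{(EuclideanSpace.single k 1 : Eu n)} (comb S a))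
    refine h3.congr (Eventually.of_forall fun x => ?_)
    simp only [lineDerivOp_apply_eq_fderiv]
  rw [h1, ← sq_re_im, mul_add]
  exact add_le_add (S.energy _) (S.energy _)

theorem comb_off (S : Sys Ω lam N) (a : Fin N → ℂ) : tsupport (comb S a) ⊆ Ω := by
  have h1 : tsupport (comb S a) ⊆ ⋃ i, tsupport (S.u i) := by
    refine closure_minimal ?_ (isClosed_iUnion_of_finite fun i => isClosed_tsupport _)
    intro x hx
    by_contra hc
    apply hx
    simp only [Set.mem_iUnion, not_exists] at hc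
    have h2 : ∀ i, S.u i x = 0 := fun i => image_eq_zero_of_notMem_tsupport (hc i)
    rw [comb_eq_sum]
    simp [sum_apply, smul_apply, toS_apply, h2]
  exact h1.trans (Set.iUnion_subset fun i => S.supp i)

theorem comb_compact (S : Sys Ω lam N) (a : Fin N → ℂ) : HasCompactSupport (comb S a) := by
  have h1 : HasCompactSupport (toS (lin S.u (fun i => (a i).re)) (S.good_lin _)) :=
    (S.good_lin _).2.comp_left (g := ((↑) : ℝ → ℂ)) (by simp)
  have h2 : HasCompactSupport (toS (lin S.u (fun i => (a i).im)) (S.good_lin _)) :=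
    (S.good_lin _).2.comp_left (g := ((↑) : ℝ → ℂ)) (by simp)
  exact h1.add (h2.comp_left (g := fun z => Complex.I • z) (by simp))

end Pool.Agent.W_h79_1ab439
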