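import Pool.Agent.W_h79_1ab439.Count

set_option autoImplicit false
set_option maxSynthPendingDepth 3

open MeasureTheory SchwartzMap FourierTransform Real Filter Topology
open scoped SchwartzMap LineDeriv ENNReal

namespace Pool.Agent.W_h79_1ab439

open Pool.Agent.W_MP_1ab439_an

variable {n : ℕ} {Ω Λ : Set (Eu n)} {lam A B : ℝ} {N : ℕ}

/-- Modulation of a function. -/
noncomputable def modu (s : Eu n) (p : Eu n → ℂ) : Eu n → ℂ :=
  fun x => Complex.exp (((2 * π * inner ℝ x s : ℝ) : ℂ) * Complex.I) * p x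

theorem norm_modu (s : Eu n) (p : Eu n → ℂ) (x : Eu n) : ‖modu s p x‖ = ‖p x‖ := by
  rw [modu, norm_mul, Complex.norm_exp_ofReal_mul_I, one_mul]

theorem contDiff_modu (s : Eu n) {p : Eu n → ℂ} (hp : ContDiff ℝ (⊤ : ℕ∞) p) :
    ContDiff ℝ (⊤ : ℕ∞) (modu s p) := by
  unfold modu
  refine ContDiff.mul ?_ hp
  refine ContDiff.cexp ?_
  refine ContDiff.mul ?_ contDiff_const
  refine Complex.ofRealCLM.contDiff.comp ?_
  exact contDiff_const.mul (contDiff_id.inner ℝ contDiff_const)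

theorem tsupport_modu (s : Eu n) (p : Eu n → ℂ) : tsupport (modu s p) ⊆ tsupport p := by
  refine closure_mono fun x hx => ?_
  rw [Function.mem_support] at hx ⊢
  intro h
  apply hx
  rw [modu, h, mul_zero]

theorem fourier_modu (s : Eu n) (p : Eu n → ℂ) (w : Eu n) :
    𝓕 (modu s p) w = 𝓕 p (w - s) := by
  rw [Real.fourier_eq, Real.fourier_eq]
  congr 1
  funext x
  rw [Circle.smul_def, Circle.smul_def, Real.fourierChar_apply, Real.fourierChar_apply, modu,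
    smul_eq_mul, smul_eq_mul, ← mul_assoc, ← Complex.exp_add, inner_sub_right]
  congr 2
  push_cast
  ring

theorem ExpFrame.shift (hF : ExpFrame Ω Λ A B) (p : 𝓢(Eu n, ℂ)) (hc : HasCompactSupport p)
    (hs : tsupport p ⊆ Ω) (s : Eu n) :
    ENNReal.ofReal (A * ∫ x, ‖p x‖ ^ 2) ≤ ∑' ξ : Λ, ENNReal.ofReal (‖𝓕 p ((ξ : Eu n) - s)‖ ^ 2) ∧
    ∑' ξ : Λ, ENNReal.ofReal (‖𝓕 p ((ξ : Eu n) - s)‖ ^ 2) ≤
      ENNReal.ofReal (B * ∫ x, ‖p x‖ ^ 2) := by
  have h := hF (modu s p) (contDiff_modu s (p.smooth _))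
    (hc.mono' ((subset_tsupport _).trans (tsupport_modu s p))) ((tsupport_modu s p).trans hs)
  simp only [norm_modu, fourier_modu] at h
  simpa only [fourier_coe] using h

theorem tsupport_deriv (p : 𝓢(Eu n, ℂ)) (m : Eu n) :
    tsupport (∂_{m} p : 𝓢(Eu n, ℂ)) ⊆ tsupport p := by
  refine closure_minimal ?_ (isClosed_tsupport _)
  intro x hx
  by_contra hc
  apply hx
  rw [lineDerivOp_apply_eq_fderiv]
  have h : fderiv ℝ p x = 0 := by
    have h1 : (p : Eu n → ℂ) =ᶠ[𝓝 x] fun _ => 0 := notMem_tsupport_iff_eventuallyEq.1 hc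
    rw [h1.fderiv_eq]
    simp
  rw [h]
  rfl

/-- The counting lemma: a complex min-max argument. -/
theorem count_ball (hF : ExpFrame Ω Λ A B) (hA : 0 < A) (hAB : A ≤ B) (S : Sys Ω lam N) {r : ℝ}
    (hr : lam * B < 4 * π ^ 2 * r ^ 2 * A) (hr0 : 0 < r) (s : Eu n) :
    (N : ℝ≥0∞) ≤ ∑' ξ : Λ, (Metric.ball s r).indicator (fun _ => (1 : ℝ≥0∞)) (ξ : Eu n) := by
  classical
  by_contra hcon
  rw [not_le] at hcon
  set c : Λ → ℝ≥0∞ := fun ξ => (Metric.ball s r).indicator (fun _ => (1 : ℝ≥0∞)) (ξ : Eu n)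
    with hc
  have hne : ∑' ξ, c ξ ≠ ∞ := (hcon.trans (ENNReal.natCast_lt_top N)).ne
  have hfin : {ξ : Λ | (1 : ℝ≥0∞) ≤ c ξ}.Finite :=
    ENNReal.finite_const_le_of_tsum_ne_top hne one_ne_zero
  set F : Finset Λ := hfin.toFinset with hFdef
  have hmem : ∀ ξ : Λ, ξ ∈ F ↔ (ξ : Eu n) ∈ Metric.ball s r := by
    intro ξ
    rw [hFdef, Set.Finite.mem_toFinset, Set.mem_ofPred_eq, hc]
    by_cases h : (ξ : Eu n) ∈ Metric.ball s r
    · simp [h]
    · simp [h]
  have hcard : ((F.card : ℕ) : ℝ≥0∞) = ∑' ξ, c ξ := by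
    rw [tsum_eq_sum (s := F)]
    · have h1 : ∀ ξ ∈ F, c ξ = 1 := by
        intro ξ hξ
        rw [hc]
        simp only
        rw [Set.indicator_of_mem ((hmem ξ).1 hξ)]
      rw [Finset.sum_congr rfl h1]
      simp
    · intro ξ hξ
      rw [hc]
      simp only
      rw [Set.indicator_of_notMem]
      exact fun h => hξ ((hmem ξ).2 h)
  have hlt : F.card < N := by
    rw [← hcard] at hcon
    exact_mod_cast hcon
  -- kernel vector
  let L : (Fin N → ℂ) →ₗ[ℂ] (F → ℂ) :=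
    { toFun := fun a ξ => ∑ i, a i * 𝓕 (toS (S.u i) (S.good i)) (((ξ : Λ) : Eu n) - s)
      map_add' := by
        intro a b
        funext ξ
        simp [add_mul, Finset.sum_add_distrib]
      map_smul' := by
        intro t a
        funext ξ
        simp [Finset.mul_sum, mul_assoc] }
  have hker : LinearMap.ker L ≠ ⊥ := by
    apply LinearMap.ker_ne_bot_of_finrank_lt
    simpa using hlt
  obtain ⟨a, ha, ha0⟩ := Submodule.exists_mem_ne_zero_of_ne_bot hker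
  have hzero : ∀ ξ : Λ, (ξ : Eu n) ∈ Metric.ball s r → 𝓕 (comb S a) ((ξ : Eu n) - s) = 0 := by
    intro ξ hξ
    rw [fourier_comb]
    have h1 : L a = 0 := ha
    exact congrFun h1 ⟨ξ, (hmem ξ).2 hξ⟩
  have hpos : 0 < ∑ i, ‖a i‖ ^ 2 := by
    obtain ⟨i, hi⟩ := Function.ne_iff.1 ha0
    refine Finset.sum_pos' (fun _ _ => by positivity) ⟨i, Finset.mem_univ _, ?_⟩
    have : 0 < ‖a i‖ := norm_pos_iff.2 hi
    positivity
  have hcs := comb_compact S a
  have hsp := comb_off S a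
  have hlow := (hF.shift (comb S a) hcs hsp s).1
  rw [integral_comb_sq] at hlow
  have hB : 0 ≤ B := hA.le.trans hAB
  -- upper bound of the weighted sum
  have hup : ∑' ξ : Λ, ENNReal.ofReal (4 * π ^ 2 * (‖(ξ : Eu n) - s‖ ^ 2 *
      ‖𝓕 (comb S a) ((ξ : Eu n) - s)‖ ^ 2)) ≤ ENNReal.ofReal (B * energy (comb S a)) := by
    have h1 : ∀ ξ : Λ, ENNReal.ofReal (4 * π ^ 2 * (‖(ξ : Eu n) - s‖ ^ 2 *
        ‖𝓕 (comb S a) ((ξ : Eu n) - s)‖ ^ 2)) = ∑ k : Fin n,
        ENNReal.ofReal (‖𝓕 (∂_{(EuclideanSpace.single k 1 : Eu n)} (comb S a))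
          ((ξ : Eu n) - s)‖ ^ 2) := by
      intro ξ
      rw [← ENNReal.ofReal_sum_of_nonneg (fun _ _ => by positivity)]
      congr 1
      rw [EuclideanSpace.real_norm_sq_eq, Finset.sum_mul, Finset.mul_sum]
      refine Finset.sum_congr rfl fun k _ => ?_
      rw [norm_fourier_deriv_sq]
    rw [tsum_congr h1, Summable.tsum_finsetSum (fun _ _ => ENNReal.summable)]
    have h2 : ENNReal.ofReal (B * energy (comb S a)) = ∑ k : Fin n, ENNReal.ofReal
        (B * ∫ x, ‖(∂_{(EuclideanSpace.single k 1 : Eu n)} (comb S a)) x‖ ^ 2) := by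
      rw [energy, Finset.mul_sum, ENNReal.ofReal_sum_of_nonneg]
      · refine Finset.sum_congr rfl fun k _ => ?_
        simp only [lineDerivOp_apply_eq_fderiv]
      · intro k _
        exact mul_nonneg hB (integral_nonneg fun x => by positivity)
    rw [h2]
    refine Finset.sum_le_sum fun k _ => ?_
    refine (hF.shift _ ?_ ((tsupport_deriv _ _).trans hsp) s).2
    exact hcs.mono' ((subset_tsupport _).trans (tsupport_deriv _ _))
  have hmid : ENNReal.ofReal (4 * π ^ 2 * r ^ 2) *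
      ∑' ξ : Λ, ENNReal.ofReal (‖𝓕 (comb S a) ((ξ : Eu n) - s)‖ ^ 2) ≤
      ∑' ξ : Λ, ENNReal.ofReal (4 * π ^ 2 * (‖(ξ : Eu n) - s‖ ^ 2 *
      ‖𝓕 (comb S a) ((ξ : Eu n) - s)‖ ^ 2)) := by
    rw [← ENNReal.tsum_mul_left]
    refine ENNReal.tsum_le_tsum fun ξ => ?_
    rw [← ENNReal.ofReal_mul (by positivity)]
    refine ENNReal.ofReal_le_ofReal ?_
    by_cases h : (ξ : Eu n) ∈ Metric.ball s r
    · rw [hzero ξ h]
      simp
    · have h2 : r ≤ ‖(ξ : Eu n) - s‖ := by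
        rw [← dist_eq_norm]
        exact not_lt.1 fun h3 => h h3
      have h3 : r ^ 2 ≤ ‖(ξ : Eu n) - s‖ ^ 2 := pow_le_pow_left₀ hr0.le h2 2
      have h4 : 0 ≤ 4 * π ^ 2 * ‖𝓕 (comb S a) ((ξ : Eu n) - s)‖ ^ 2 := by positivity
      nlinarith
  have hfinal : 4 * π ^ 2 * r ^ 2 * (A * ∑ i, ‖a i‖ ^ 2) ≤ B * energy (comb S a) := by
    have h1 : ENNReal.ofReal (4 * π ^ 2 * r ^ 2 * (A * ∑ i, ‖a i‖ ^ 2)) ≤
        ENNReal.ofReal (B * energy (comb S a)) := by
      rw [ENNReal.ofReal_mul (by positivity)]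
      exact (mul_le_mul_right hlow _).trans (hmid.trans hup)
    have h2 : 0 ≤ energy (comb S a) :=
      Finset.sum_nonneg fun k _ => integral_nonneg fun x => by positivity
    exact (ENNReal.ofReal_le_ofReal_iff (mul_nonneg hB h2)).1 h1
  have h5 := energy_comb_le S a
  have h6 : B * energy (comb S a) ≤ B * (lam * ∑ i, ‖a i‖ ^ 2) := mul_le_mul_of_nonneg_left h5 hB
  have h7 : 4 * π ^ 2 * r ^ 2 * A * (∑ i, ‖a i‖ ^ 2) ≤ lam * B * ∑ i, ‖a i‖ ^ 2 := by
    linarith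
  exact absurd (le_of_mul_le_mul_right h7 hpos) (not_le.2 hr)

end Pool.Agent.W_h79_1ab439
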